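import Pool.Agent.H86.PqA

set_option autoImplicit false

namespace Pool.Agent.Results.MP_04cb70_an.LowerA

open Filter Topology Pool.Agent.H86.Pmc
open scoped ENNReal

/-- The constant `c_k'` (unit square). -/
noncomputable def cA (k : ℕ) : ℝ≥0∞ :=
  limsup (fun n : ℕ => ENNReal.ofReal √(n : ℝ) * errW (S2 k n) (ZD 0 1)) atTop

theorem result : ∀ k : ℕ, 1 ≤ k → ENNReal.ofReal (1 / (2 * √(k : ℝ))) ≤ cA k := by
  have hs : Tendsto (fun n : ℕ => √(n : ℝ)) atTop atTop :=
    Real.tendsto_sqrt_atTop.comp tendsto_natCast_atTop_atTop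
  intro k hk
  have hk' : (0 : ℝ) < k := by exact_mod_cast hk
  refine lim_low (B := 12) (by positivity) (by norm_num) _ hs _ fun n _ => ?_
  refine le_trans (ENNReal.ofReal_le_ofReal (one_div_le_one_div_of_le (by positivity) ?_))
    ((lowZ (k * n + 2)).trans (errW_mono (W' := M2 (k * n + 2)) (ZD 0 1) (S2_sub hk n)))
  have : √((k * n + 2 : ℕ) : ℝ) ≤ √(k : ℝ) * √(n : ℝ) + 2 := by
    rw [Real.sqrt_le_left (by positivity), ← Real.sqrt_mul hk'.le]
    push_cast
    nlinarith [Real.sq_sqrt (show (0 : ℝ) ≤ k * n by positivity), Real.sqrt_nonneg (k * n : ℝ)]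
  linarith

end Pool.Agent.Results.MP_04cb70_an.LowerA
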