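import Pool.Agent.H86.PqA

set_option autoImplicit false

namespace Pool.Agent.Results.MP_04cb70_an.LowerB

open Filter Topology Pool.Agent.H86.Pmc
open scoped ENNReal

/-- The constant `c_k''`. -/
noncomputable def cB (k : ℕ) : ℝ≥0∞ :=
  limsup (fun n : ℕ => ENNReal.ofReal (n : ℝ) * errW (S2 k n) Gamma1) atTop

theorem result : ∀ k : ℕ, 1 ≤ k → ENNReal.ofReal (1 / (3 * k)) ≤ cB k := by
  intro k hk
  have hk' : (0 : ℝ) < k := by exact_mod_cast hk
  refine lim_low (B := 18) (by positivity) (by norm_num) _ tendsto_natCast_atTop_atTop _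
    fun n _ => ?_
  refine le_trans (ENNReal.ofReal_le_ofReal (le_of_eq ?_))
    ((lower (k * n + 2)).trans (errW_mono (W' := M2 (k * n + 2)) Gamma1 (S2_sub hk n)))
  push_cast
  ring

end Pool.Agent.Results.MP_04cb70_an.LowerB
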