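import Pool.Agent.H86.PqA

set_option autoImplicit false

namespace Pool.Agent.Results.MP_04cb70_an.UpperA

open Filter Topology Pool.Agent.H86.Pmc
open scoped ENNReal

/-- The constant `c_k'` (unit square). -/
noncomputable def cA (k : ℕ) : ℝ≥0∞ :=
  limsup (fun n : ℕ => ENNReal.ofReal √(n : ℝ) * errW (S2 k n) (ZD 0 1)) atTop

theorem result : cA 1 ≤ ENNReal.ofReal (1 / √2) := by
  have hs : Tendsto (fun n : ℕ => √(n : ℝ)) atTop atTop :=
    Real.tendsto_sqrt_atTop.comp tendsto_natCast_atTop_atTop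
  refine lim_up (B := -2) (by positivity) _ hs _ fun n hn => ?_
  · obtain ⟨N, rfl⟩ : ∃ N, n = N + 1 := ⟨n - 1, by omega⟩
    have h1 := Nat.lt_succ_sqrt ((N + 1) / 2)
    have h2 := Nat.sqrt_le ((N + 1) / 2)
    simp only [Nat.succ_eq_add_one] at h1
    have s2 : √2 * √2 = (2 : ℝ) := Real.mul_self_sqrt (by norm_num)
    have sn := Real.mul_self_sqrt (show (0 : ℝ) ≤ ((N + 1 : ℕ) : ℝ) by positivity)
    rw [show √2 * √((N + 1 : ℕ) : ℝ) = √(2 * ((N + 1 : ℕ) : ℝ)) from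
      (Real.sqrt_mul (by norm_num) _).symm]
    refine (upperZS (p := Nat.sqrt ((N + 1) / 2)) (Nat.sqrt_pos.2 (by omega)) (by omega)).trans
      (ENNReal.ofReal_le_ofReal (one_div_le_one_div_of_le ?_ ?_))
    · have : (2 : ℝ) < √(2 * ((N + 1 : ℕ) : ℝ)) := by
        rw [Real.lt_sqrt (by norm_num)]
        have : (3 : ℝ) ≤ ((N + 1 : ℕ) : ℝ) := by exact_mod_cast hn
        linarith
      linarith
    · have : √(2 * ((N + 1 : ℕ) : ℝ)) ≤ 2 * (Nat.sqrt ((N + 1) / 2) : ℝ) + 2 := by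
        rw [Real.sqrt_le_left (by positivity)]
        have : 2 * (N + 1) ≤ (2 * Nat.sqrt ((N + 1) / 2) + 2) ^ 2 := by
          have : N + 1 ≤ 2 * ((N + 1) / 2) + 1 := by omega
          nlinarith
        exact_mod_cast this
      linarith

end Pool.Agent.Results.MP_04cb70_an.UpperA
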